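import Pool.Agent.Helper88.RR.Goals
import Pool.Agent.Helper88.LG.FinA
import Pool.Agent.Helper31.LG.SM
import Pool.Agent.Helper49.LG.PK
import Pool.Agent.Helper69.LG.ME
import Pool.Agent.Helper37.PP.HM

/-!
# Packet RK: the choice of the class
-/

set_option autoImplicit false

open Finset Filter Topology

open scoped Classical

namespace Pool.Agent.Helper73.RR

open Pool.Agent.Helper88.RR Pool.Agent.Helper88.LG

theorem sq_le_exp {x : ℝ} (hx : 0 ≤ x) : x ^ 2 ≤ Real.exp x := by
  have h1 : x ≤ Real.exp (x / 2) := by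
    have := Real.quadratic_le_exp_of_nonneg (x := x / 2) (by linarith)
    nlinarith [sq_nonneg (x - 2)]
  have h2 : Real.exp x = Real.exp (x / 2) ^ 2 := by
    rw [← Real.exp_nat_mul]; congr 1; push_cast; ring
  rw [h2]
  exact pow_le_pow_left₀ hx h1 2

theorem log_le_half {x : ℝ} (hx : 0 < x) : Real.log x ≤ x / 2 := by
  rw [Real.log_le_iff_le_exp hx]
  have := Real.quadratic_le_exp_of_nonneg (x := x / 2) (by linarith)
  nlinarith [sq_nonneg (x - 2)]

theorem ev (C : ℝ) : ∀ᶠ L : ℝ in atTop, 1 ≤ L ∧ 1 ≤ Real.log L ∧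
    8 * Real.log (8 * C) ≤ Real.log L ∧ 512 * L ^ 2 ≤ Real.exp L ∧ Real.log (64 * L) ≤ L := by
  have h1 : ∀ᶠ L : ℝ in atTop, 1 ≤ L := eventually_ge_atTop 1
  have h2 : ∀ᶠ L : ℝ in atTop, 1 ≤ Real.log L := Real.tendsto_log_atTop.eventually_ge_atTop 1
  have h3 : ∀ᶠ L : ℝ in atTop, 8 * Real.log (8 * C) ≤ Real.log L :=
    Real.tendsto_log_atTop.eventually_ge_atTop _
  have h4 : ∀ᶠ L : ℝ in atTop, 512 * L ^ 2 ≤ Real.exp L := by
    have h := (Real.tendsto_exp_div_pow_atTop 2).eventually_ge_atTop 512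
    filter_upwards [h, eventually_gt_atTop 0] with L hL hL0
    rwa [le_div_iff₀ (by positivity)] at hL
  filter_upwards [h1, h2, h3, h4, eventually_ge_atTop 64] with L a1 a2 a3 a4 a5
  refine ⟨a1, a2, a3, a4, ?_⟩
  rw [Real.log_le_iff_le_exp (by positivity)]
  nlinarith only [a4, a5, a1]

theorem prod_le {C : ℝ} (hMP : ∀ u v : ℕ, 2 ≤ u → u ≤ v →
    Pool.Agent.Helper88.PP.om u v ≤ C * (Real.log u / Real.log v)) (hC : 0 < C) (t : ℕ)
    (ht : 2 ≤ t) : ∏ p ∈ (Icc 1 t).filter Nat.Prime, (1 - 1 / (p : ℝ)) ≤ C / Real.log t := by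
  have e : (Icc 1 t).filter Nat.Prime = insert 2 ((Ioc 2 t).filter Nat.Prime) := by
    ext p
    simp only [mem_filter, mem_Icc, mem_insert, mem_Ioc]
    constructor
    · rintro ⟨⟨h1, h2⟩, h3⟩
      rcases h3.two_le.eq_or_lt with h4 | h4
      · exact Or.inl h4.symm
      · exact Or.inr ⟨⟨h4, h2⟩, h3⟩
    · rintro (rfl | ⟨⟨h1, h2⟩, h3⟩)
      · exact ⟨⟨by norm_num, ht⟩, Nat.prime_two⟩
      · exact ⟨⟨by omega, h2⟩, h3⟩
  rw [e, prod_insert (by simp)]
  have h1 := hMP 2 t le_rfl ht
  unfold Pool.Agent.Helper88.PP.om Pool.Agent.Helper88.PP.pr at h1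
  have hlt : 0 < Real.log t := Real.log_pos (by exact_mod_cast (by omega : 1 < t))
  have h2 : 0 ≤ ∏ p ∈ (Ioc 2 t).filter Nat.Prime, (1 - 1 / (p : ℝ)) := by
    refine prod_nonneg fun p hp => ?_
    have hp2 := (mem_filter.1 hp).2.two_le
    have hp3 : (2 : ℝ) ≤ p := by exact_mod_cast hp2
    have : 1 / (p : ℝ) ≤ 1 := by
      rw [div_le_one (by linarith)]; linarith
    linarith
  have h3 : Real.log (2 : ℕ) ≤ 1 := by
    have := Real.log_two_lt_d9
    push_cast
    linarith
  have h4 : C * (Real.log (2 : ℕ) / Real.log t) ≤ C / Real.log t := by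
    rw [← mul_div_assoc]
    gcongr
    nlinarith only [hC, h3]
  have h5 : (1 - 1 / ((2 : ℕ) : ℝ)) = 1 / 2 := by norm_num
  rw [h5]
  linarith

theorem rk : StmtRK := by
  obtain ⟨C1, hC1, hSM⟩ := Pool.Agent.Helper31.LG.sm
  obtain ⟨C2, hC2, hME⟩ := Pool.Agent.Helper69.LG.me
  obtain ⟨C3, hC3, hMP⟩ := Pool.Agent.Helper37.PP.mp
  have hPK := Pool.Agent.Helper49.LG.pk
  set C := max C1 1 with hCdef
  have hC1C : C1 ≤ C := le_max_left _ _
  have hC1' : 1 ≤ C := le_max_right _ _
  have hev1 : ∀ᶠ w : ℕ in atTop, 2 ≤ Real.log w :=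
    (Real.tendsto_log_atTop.comp tendsto_natCast_atTop_atTop).eventually_ge_atTop 2
  have hev2 := (Real.tendsto_log_atTop.comp
    (Real.tendsto_log_atTop.comp tendsto_natCast_atTop_atTop)).eventually (ev C)
  obtain ⟨w0, hw0⟩ := eventually_atTop.1 ((hev1.and hev2).and (eventually_ge_atTop 2))
  refine ⟨128 * C3 * (4 + C2), by positivity, w0, fun w H hw hwH hH => ?_⟩
  obtain ⟨⟨hl1, hL1, hl3, hlC, hexp, hlog64⟩, hw2⟩ := hw0 w hw
  simp only [Function.comp_apply] at hL1 hl3 hlC hexp hlog64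
  set l1 := Real.log w with hl1def
  set L := Real.log l1 with hLdef
  set l3 := Real.log L with hl3def
  have hl10 : 0 < l1 := by linarith only [hl1]
  have hL0 : 0 < L := by linarith only [hL1]
  have hl30 : 0 < l3 := by linarith only [hl3]
  have hexpL : Real.exp L = l1 := Real.exp_log hl10
  have hw0' : (0 : ℝ) < w := by exact_mod_cast (by omega : 0 < w)
  have hexpl1 : Real.exp l1 = w := Real.exp_log hw0'
  rw [hexpL] at hexp
  have hH0 : (0 : ℝ) < H := by exact_mod_cast (by omega : 0 < H)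
  have hl3L : l3 ≤ L := (log_le_half hL0).trans (by linarith only [hL1])
  set u := 64 * L / l3 with hu
  have hu64 : 64 ≤ u := by rw [hu, le_div_iff₀ hl30]; linarith only [hl3L]
  have hu0 : 0 < u := by linarith only [hu64]
  have huL : u ≤ 64 * L := by rw [hu]; exact div_le_self (by positivity) hl3
  have hlogu1 : Real.log u ≤ L := (Real.log_le_log hu0 huL).trans hlog64
  have hlogu2 : l3 / 2 ≤ Real.log u := by
    rw [hu, Real.log_div (by positivity) hl30.ne', Real.log_mul (by norm_num) hL0.ne']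
    have h1 := log_le_half hl30
    have h2 : 0 ≤ Real.log 64 := Real.log_nonneg (by norm_num)
    linarith only [h1, h2]
  have hlogu3 : 4 * Real.log (8 * C) ≤ Real.log u := by linarith only [hlC, hlogu2]
  have hlogu4 : 1 ≤ Real.log u := by
    have h1 : Real.exp 1 ≤ u := by
      have := Real.exp_one_lt_d9
      linarith only [hu64, this]
    rwa [Real.le_log_iff_exp_le hu0]
  set v := l1 / u with hv
  have hv8 : 8 * L ≤ v := by
    rw [hv, le_div_iff₀ hu0]
    have : 8 * L * u ≤ 8 * L * (64 * L) := by gcongr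
    nlinarith only [hexp, this]
  have hv0 : 0 < v := by linarith only [hL1, hv8]
  have hvl : v ≤ l1 := by rw [hv]; exact div_le_self hl10.le (by linarith only [hu64])
  set t := ⌊Real.exp v⌋₊ with ht
  have htv : (t : ℝ) ≤ Real.exp v := Nat.floor_le (Real.exp_pos v).le
  have htv' : Real.exp (v / 2) ≤ t := by
    have h1 : Real.exp v - 1 ≤ t := (Nat.sub_one_lt_floor (Real.exp v)).le
    have h2 : Real.exp v = Real.exp (v / 2) ^ 2 := by
      rw [← Real.exp_nat_mul]; congr 1; push_cast; ring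
    have h3 : v / 2 + 1 ≤ Real.exp (v / 2) := Real.add_one_le_exp _
    have h4 : 2 ≤ Real.exp (v / 2) := by linarith only [hL1, hv8, h3]
    nlinarith only [hL1, hv8, h1, h2, h3]
  have ht2 : 2 ≤ t := by
    have h3 : v / 2 + 1 ≤ Real.exp (v / 2) := Real.add_one_le_exp _
    have h4 : (2 : ℝ) ≤ t := by linarith only [hL1, hv8, htv', h3]
    exact_mod_cast h4
  have htw : t ≤ w := by
    have h1 : (t : ℝ) ≤ w := by
      rw [← hexpl1]
      exact htv.trans (Real.exp_le_exp.2 hvl)
    exact_mod_cast h1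
  have ht0 : (0 : ℝ) < t := by exact_mod_cast (by omega : 0 < t)
  have hlt1 : v / 2 ≤ Real.log t := (Real.le_log_iff_exp_le ht0).2 htv'
  have hlt2 : Real.log t ≤ v := (Real.log_le_iff_le_exp ht0).2 htv
  have hlt0 : 0 < Real.log t := by linarith only [hL1, hv8, hlt1]
  have hlH1 : l1 ≤ Real.log H := Real.log_le_log hw0' (by exact_mod_cast hwH)
  have hlH2 : Real.log H ≤ l1 + 2 * L := by
    have h1 := Real.log_le_log hH0 hH
    rw [Real.log_mul hw0'.ne' (by positivity), Real.log_pow] at h1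
    push_cast at h1
    exact h1
  -- smooth numbers
  set s := Real.log (u / (8 * C)) with hs
  have hsu : s = Real.log u - Real.log (8 * C) := Real.log_div hu0.ne' (by positivity)
  have hC8 : 0 ≤ Real.log (8 * C) := Real.log_nonneg (by linarith only [hC1, hC1C, hC1'])
  have hs1 : 3 / 4 * Real.log u ≤ s := by rw [hsu]; linarith only [hlC, hlogu2]
  have hs2 : s ≤ Real.log u := by rw [hsu]; linarith only [hC8]
  have hs0 : 0 ≤ s := by linarith only [hl3, hlC, hlogu2, hsu]
  have hsm := hSM H t s ht2 (by omega) hs0 (by linarith only [hL1, hlogu1, hv8, hlt1, hsu, hC8])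
  have hes : Real.exp s = u / (8 * C) := Real.exp_log (by positivity)
  have hexpo : C1 * Real.exp s - s * Real.log H / (2 * Real.log t) ≤ -L := by
    have h1 : C1 * Real.exp s ≤ u / 8 := by
      rw [hes]
      calc C1 * (u / (8 * C)) ≤ C * (u / (8 * C)) := by gcongr
        _ = u / 8 := by field_simp
    have h2 : s * u / 2 ≤ s * Real.log H / (2 * Real.log t) := by
      rw [div_le_div_iff₀ (by norm_num) (by positivity)]
      have h3 : u * Real.log t ≤ Real.log H := by
        calc u * Real.log t ≤ u * v := by gcongr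
          _ = l1 := by rw [hv]; field_simp
          _ ≤ Real.log H := hlH1
      nlinarith only [h3, hl3, hlC, hlogu2, hsu]
    have h3 : 3 / 8 * (u * Real.log u) ≤ s * u / 2 := by nlinarith only [hlC, hlogu2, hsu, hu64]
    have h4 : u ≤ u * Real.log u := le_mul_of_one_le_right hu0.le hlogu4
    have h5 : 32 * L ≤ u * Real.log u := by
      calc 32 * L = u * (l3 / 2) := by rw [hu]; field_simp; ring
        _ ≤ u * Real.log u := by gcongr
    linarith only [hu64, h1, h2, h3, h4, h5]
  have hsm2 : ((Sm H t).card : ℝ) ≤ 2 * (H / l1) := by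
    have h1 : Real.exp (C1 * Real.exp s - s * Real.log H / (2 * Real.log t)) ≤ 1 / l1 := by
      refine (Real.exp_le_exp.2 hexpo).trans (le_of_eq ?_)
      rw [Real.exp_neg, hexpL, one_div]
    have h2 : Real.sqrt H ≤ H / l1 := by
      rw [le_div_iff₀ hl10]
      have h3 : l1 ≤ Real.sqrt H := by
        apply Real.le_sqrt_of_sq_le
        have h4 := sq_le_exp hl10.le
        rw [hexpl1] at h4
        exact h4.trans (by exact_mod_cast hwH)
      calc Real.sqrt H * l1 ≤ Real.sqrt H * Real.sqrt H := by gcongr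
        _ = H := Real.mul_self_sqrt hH0.le
    calc ((Sm H t).card : ℝ) ≤ Real.sqrt H +
          H * Real.exp (C1 * Real.exp s - s * Real.log H / (2 * Real.log t)) := hsm
      _ ≤ H / l1 + H * (1 / l1) := by gcongr
      _ = 2 * (H / l1) := by ring
  have hme := hME w H (by exact_mod_cast hw2) (by exact_mod_cast hwH)
  have hme2 : Real.log (Real.log H / Real.log w) + C2 / Real.log w ≤ (2 * L + C2) / l1 := by
    have h1 : Real.log (Real.log H / l1) ≤ 2 * L / l1 := by
      have h2 : Real.log H / l1 ≤ 1 + 2 * L / l1 := by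
        rw [div_le_iff₀ hl10]
        have : (1 + 2 * L / l1) * l1 = l1 + 2 * L := by field_simp
        linarith only [hlH2, this]
      have h3 : 0 < Real.log H / l1 := by
        have : 0 < Real.log H := by linarith only [hL1, hv8, hvl, hlH1]
        positivity
      have h4 := Real.log_le_sub_one_of_pos h3
      linarith only [h2, h4]
    rw [← hl1def, add_div]
    linarith only [h1]
  have hS0 : ((S0 H t w).card : ℝ) ≤ H * ((4 + C2) * L / l1) := by
    have h1 := card_S0_le H t (w : ℝ) (by positivity)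
    rw [Nat.floor_natCast] at h1
    refine h1.trans ?_
    have h2 := hme.trans hme2
    calc ((Sm H t).card : ℝ) + H * ∑ p ∈ (Icc 1 H).filter (fun p : ℕ => p.Prime ∧ (w : ℝ) < (p : ℝ)),
          1 / (p : ℝ) ≤ 2 * (H / l1) + H * ((2 * L + C2) / l1) := by gcongr
      _ = H * ((2 + 2 * L + C2) / l1) := by ring
      _ ≤ H * ((4 + C2) * L / l1) := by
        gcongr
        nlinarith only [hL1, hC2]
  obtain ⟨a, ha, hcard⟩ := hPK H t w htw
  refine ⟨a, ha, hcard.trans ?_⟩
  have hprod := prod_le hMP hC3 t ht2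
  have hprod2 : C3 / Real.log t ≤ 128 * C3 * L / (l3 * l1) := by
    calc C3 / Real.log t ≤ C3 / (v / 2) := by gcongr
      _ = 128 * C3 * L / (l3 * l1) := by rw [hv, hu]; field_simp; ring
  have hprod0 : 0 ≤ ∏ p ∈ (Icc 1 t).filter Nat.Prime, (1 - 1 / (p : ℝ)) := by
    refine prod_nonneg fun p hp => ?_
    have hp2 := (mem_filter.1 hp).2.two_le
    have hp3 : (2 : ℝ) ≤ p := by exact_mod_cast hp2
    have : 1 / (p : ℝ) ≤ 1 := by
      rw [div_le_one (by linarith only [hp3])]; linarith only [hp3]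
    linarith only [this]
  calc ((S0 H t w).card : ℝ) * ∏ p ∈ (Icc 1 t).filter Nat.Prime, (1 - 1 / (p : ℝ))
      ≤ (H * ((4 + C2) * L / l1)) * (128 * C3 * L / (l3 * l1)) := by
        gcongr
        exact hprod.trans hprod2
    _ = 128 * C3 * (4 + C2) * H * L ^ 2 / (l1 ^ 2 * l3) := by
        field_simp

end Pool.Agent.Helper73.RR
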